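import Mathlib
import Pool.Agent.X130.HZ.Sml
import Pool.Agent.X112.HP.Stm

set_option autoImplicit false

namespace Pool.Agent.X130.HP

open Finset Pool.Agent.X130.HZ

theorem inj_of_det' {ι κ : Type} {r : ℕ} (A : Matrix ι κ ℤ) (R : Fin r → ι) (T : Fin r → κ)
    (h : (A.submatrix R T).det ≠ 0) : Function.Injective R := by
  intro a b hab
  by_contra hne
  exact h (Matrix.det_zero_of_row_eq hne (by funext k; simp [hab]))

theorem small {ι κ : Type} [Fintype ι] [DecidableEq ι] [Fintype κ] [DecidableEq κ]
    (A : Matrix ι κ ℤ) (b : ι → ℤ) (H : ℕ) (hA : ∀ i j, |A i j| ≤ H) (hb : ∀ i, |b i| ≤ 1)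
    (hx' : ∃ x : κ → ℤ, A.mulVec x = b) :
    ∃ x : κ → ℤ, A.mulVec x = b ∧
      ∀ j, |x j| ≤ (((Fintype.card ι).factorial * (H + 1) ^ (Fintype.card ι)) *
        (1 + Fintype.card κ * ((Fintype.card ι).factorial * (H + 1) ^ (Fintype.card ι)) * (H + 1)) : ℕ) := by
  obtain ⟨x, hx⟩ := hx'
  classical
  obtain ⟨r, R, T, hD, hmax⟩ := exists_max A
  have hT := inj_of_det A R T hD
  have hR := inj_of_det' A R T hD
  set D := (A.submatrix R T).det with hDdef
  choose c hc using exists_comb A R T hmax
  have hr : r ≤ Fintype.card ι := by simpa using Fintype.card_le_of_injective R hR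
  -- the kernel vectors
  let v : κ → κ → ℤ := fun j k => (∑ s, c j s * (if k = T s then 1 else 0)) - D * (if k = j then 1 else 0)
  have hv : ∀ j, A.mulVec (v j) = 0 := by
    intro j
    funext i
    have := hc j i
    simp only [Matrix.mulVec, dotProduct, v, mul_sub, Finset.sum_sub_distrib, Finset.mul_sum]
    rw [Finset.sum_comm]
    have e1 : ∀ s : Fin r, ∑ k, A i k * (c j s * (if k = T s then 1 else 0)) = c j s * A i (T s) := by
      intro s
      rw [Finset.sum_eq_single (T s)]
      · simp; ring
      · intro k _ hk; simp [hk]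
      · simp
    have e2 : ∑ k, A i k * (D * (if k = j then 1 else 0)) = D * A i j := by
      rw [Finset.sum_eq_single j]
      · simp; ring
      · intro k _ hk; simp [hk]
      · simp
    rw [Finset.sum_congr rfl (fun s _ => e1 s), e2]
    simp only [Pi.zero_apply]
    rw [this]; ring
  let J : Finset κ := univ.filter (fun j => j ∉ Set.range T)
  let y : κ → ℤ := x + ∑ j ∈ J, (x j / D) • v j
  have hy : A.mulVec y = b := by
    show A.mulVec (x + ∑ j ∈ J, (x j / D) • v j) = b
    rw [Matrix.mulVec_add, hx]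
    have : A.mulVec (∑ j ∈ J, (x j / D) • v j) = 0 := by
      rw [← Matrix.mulVecLin_apply, map_sum]
      refine Finset.sum_eq_zero (fun j _ => ?_)
      rw [map_zsmul, Matrix.mulVecLin_apply, hv j, smul_zero]
    rw [this, add_zero]
  have hyJ : ∀ j ∈ J, y j = x j % D := by
    intro j hj
    have hjT : ∀ s, j ≠ T s := by
      intro s hs
      have : j ∉ Set.range T := (Finset.mem_filter.1 hj).2
      exact this ⟨s, hs.symm⟩
    show x j + (∑ j' ∈ J, (x j' / D) • v j') j = _
    rw [Finset.sum_apply, Finset.sum_eq_single j]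
    · simp [v, hjT]
      have := Int.emod_add_mul_ediv (x j) D
      linarith
    · intro k _ hk
      simp [v, hjT, Ne.symm hk]
    · intro h; exact absurd hj h
  have hf1 : (1 : ℤ) ≤ (r.factorial : ℤ) := by exact_mod_cast Nat.factorial_pos r
  have hH1 : (1 : ℤ) ≤ (H : ℤ) + 1 := by linarith [Int.natCast_nonneg H]
  have hAH : ∀ i j, |A i j| ≤ (H : ℤ) + 1 := fun i j => (hA i j).trans (by linarith)
  set F : ℤ := (((Fintype.card ι).factorial * (H + 1) ^ (Fintype.card ι) : ℕ) : ℤ) with hF
  have hFr : (r.factorial : ℤ) * ((H : ℤ) + 1) ^ r ≤ F := by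
    rw [hF]; push_cast
    have h1 : (r.factorial : ℤ) ≤ ((Fintype.card ι).factorial : ℤ) := by
      exact_mod_cast Nat.factorial_le hr
    have h2 : ((H : ℤ) + 1) ^ r ≤ ((H : ℤ) + 1) ^ (Fintype.card ι) := pow_le_pow_right₀ hH1 hr
    exact mul_le_mul h1 h2 (by positivity) (by positivity)
  have hDr : |D| ≤ F := by
    have := det_bound (A.submatrix R T) (fun _ => (H : ℤ) + 1) (fun i j => hAH _ _)
    refine this.trans ?_
    simpa using hFr
  have hD1 : 1 ≤ |D| := Int.one_le_abs hD
  have hF1 : 1 ≤ F := hD1.trans hDr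
  have hyJ' : ∀ j ∈ J, |y j| ≤ F := by
    intro j hj
    rw [hyJ j hj, abs_of_nonneg (Int.emod_nonneg _ hD)]
    exact (Int.emod_lt_abs _ hD).le.trans hDr
  refine ⟨y, hy, fun j => ?_⟩
  set N : ℤ := (Fintype.card κ : ℤ) with hN
  have hN0 : 0 ≤ N := by positivity
  have hgoal : ((((Fintype.card ι).factorial * (H + 1) ^ (Fintype.card ι)) *
        (1 + Fintype.card κ * ((Fintype.card ι).factorial * (H + 1) ^ (Fintype.card ι)) * (H + 1)) : ℕ) : ℤ)
        = F * (1 + N * F * ((H : ℤ) + 1)) := by
    rw [hF, hN]; push_cast; ring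
  rw [hgoal]
  set C : ℤ := 1 + N * F * ((H : ℤ) + 1) with hC
  have hC1 : 1 ≤ C := by
    have : 0 ≤ N * F * ((H : ℤ) + 1) := by positivity
    linarith
  by_cases hj : j ∈ J
  · have h1 := hyJ' j hj
    nlinarith
  · have : j ∈ Set.range T := by
      by_contra h
      exact hj (Finset.mem_filter.2 ⟨Finset.mem_univ _, h⟩)
    obtain ⟨s, rfl⟩ := this
    set M := A.submatrix R T with hM
    let β : Fin r → ℤ := fun i => b (R i) - ∑ j ∈ J, A (R i) j * y j
    have hβ : M.mulVec (y ∘ T) = β := by
      funext i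
      have h1 : ∑ k, A (R i) k * y k = b (R i) := by
        have := congrFun hy (R i)
        simpa [Matrix.mulVec, dotProduct] using this
      have h2 : ∑ k, A (R i) k * y k = ∑ k ∈ J, A (R i) k * y k + ∑ k ∈ Jᶜ, A (R i) k * y k :=
        (Finset.sum_add_sum_compl J _).symm
      have h3 : Jᶜ = univ.image T := by
        ext k
        simp [J]
      have h4 : ∑ k ∈ Jᶜ, A (R i) k * y k = ∑ s, A (R i) (T s) * y (T s) := by
        rw [h3, Finset.sum_image (fun a _ b _ h => hT h)]
      simp only [Matrix.mulVec, dotProduct, β, hM, Matrix.submatrix_apply, Function.comp]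
      linarith
    have hcr : M.cramer β = D • (y ∘ T) := by
      rw [Matrix.cramer_eq_adjugate_mulVec, ← hβ, Matrix.mulVec_mulVec, Matrix.adjugate_mul,
        Matrix.smul_mulVec, Matrix.one_mulVec]
    have hcs : D * y (T s) = (M.updateCol s β).det := by
      have := congrFun hcr s
      rw [Matrix.cramer_apply] at this
      simpa using this.symm
    have hβb : ∀ i, |β i| ≤ C := by
      intro i
      have h1 : |∑ j ∈ J, A (R i) j * y j| ≤ N * F * ((H : ℤ) + 1) := by
        refine (Finset.abs_sum_le_sum_abs _ _).trans ?_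
        have : ∀ j ∈ J, |A (R i) j * y j| ≤ F * ((H : ℤ) + 1) := by
          intro j hj
          rw [abs_mul, mul_comm]
          exact mul_le_mul (hyJ' j hj) (hAH _ _) (abs_nonneg _) (by linarith)
        refine (Finset.sum_le_sum this).trans ?_
        rw [Finset.sum_const, nsmul_eq_mul]
        have h5 : (J.card : ℤ) ≤ N := by
          rw [hN]; exact_mod_cast Finset.card_le_univ J
        have h6 : 0 ≤ F * ((H : ℤ) + 1) := by positivity
        nlinarith
      calc |β i| ≤ |b (R i)| + |∑ j ∈ J, A (R i) j * y j| := abs_sub _ _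
        _ ≤ C := by have := hb (R i); linarith
    have hprod : ∏ j : Fin r, (if j = s then C else (H : ℤ) + 1) ≤ C * ((H : ℤ) + 1) ^ r := by
      have h7 : ∀ j ∈ (univ : Finset (Fin r)), (if j = s then C else (H : ℤ) + 1)
          ≤ (if j = s then C else 1) * ((H : ℤ) + 1) := by
        intro j _
        split_ifs
        · nlinarith
        · linarith
      have h8 : ∀ j ∈ (univ : Finset (Fin r)), 0 ≤ (if j = s then C else (H : ℤ) + 1) := by
        intro j _
        split_ifs <;> linarith
      refine (Finset.prod_le_prod h8 h7).trans ?_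
      rw [Finset.prod_mul_distrib]
      simp
    have hdet : |(M.updateCol s β).det| ≤ F * C := by
      have := det_bound (M.updateCol s β) (fun j => if j = s then C else (H : ℤ) + 1) (by
        intro i j
        by_cases h : j = s
        · subst h; simpa using hβb i
        · simp only [Matrix.updateCol_ne h, if_neg h]
          exact hAH _ _)
      refine this.trans ?_
      calc (r.factorial : ℤ) * ∏ j : Fin r, (if j = s then C else (H : ℤ) + 1)
          ≤ (r.factorial : ℤ) * (C * ((H : ℤ) + 1) ^ r) :=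
            mul_le_mul_of_nonneg_left hprod (by linarith)
        _ = ((r.factorial : ℤ) * ((H : ℤ) + 1) ^ r) * C := by ring
        _ ≤ F * C := mul_le_mul_of_nonneg_right hFr (by linarith)
    have h6 : |D| * |y (T s)| ≤ F * C := by
      rw [← abs_mul, hcs]; exact hdet
    have h7 := abs_nonneg (y (T s))
    nlinarith

theorem t_BND : Pool.Agent.X112.HP.S_BND := by
  intro ι κ _ _ _ _ g H hg htop k
  classical
  have hmem : (Pi.single k 1 : κ → ℤ) ∈ AddSubgroup.closure (Set.range g) := by
    rw [htop]; trivial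
  have hex : ∃ x : ι → ℤ, ∑ i, x i • g i = Pi.single k 1 := by
    have h1 : AddSubgroup.closure (Set.range g) = (Submodule.span ℤ (Set.range g)).toAddSubgroup := by
      rw [Submodule.span_int_eq_addSubgroupClosure]
    rw [h1] at hmem
    have h2 : (Pi.single k 1 : κ → ℤ) ∈ Submodule.span ℤ (Set.range g) := hmem
    rw [Submodule.mem_span_range_iff_exists_fun] at h2
    exact h2
  obtain ⟨x, hx⟩ := hex
  have hcomb : ∀ (z : ι → ℤ), Matrix.mulVec (Matrix.of fun (l : κ) (i : ι) => g i l) z = ∑ i, z i • g i := by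
    intro z
    funext l
    simp only [Matrix.mulVec, dotProduct, Matrix.of_apply, Finset.sum_apply, Pi.smul_apply, smul_eq_mul]
    exact Finset.sum_congr rfl (fun i _ => mul_comm _ _)
  obtain ⟨y, hy, hb⟩ := small (Matrix.of fun (l : κ) (i : ι) => g i l) (Pi.single k 1) H
    (fun l i => hg i l) (fun i => by
      by_cases h : i = k
      · subst h; simp
      · simp [h]) ⟨x, by rw [hcomb]; exact hx⟩
  refine ⟨y, by rw [← hcomb]; exact hy, fun i => (hb i).trans ?_⟩
  have : ∀ a b M : ℕ, a * b ≤ (M + 1) * a * b := by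
    intro a b M
    nlinarith [Nat.zero_le (M * a * b)]
  exact_mod_cast this _ _ _

end Pool.Agent.X130.HP
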